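import Pool.Agent.Lib.MP_3ace2b_pr.Final

/-!
The free group of rank two is not algebraically recurrent.
-/

open MeasureTheory

namespace Pool.Agent.Results.MP_3ace2b_pr.FreeGroupNotAR

open Pool.Agent.Lib.MP_3ace2b_pr

/-- There is a symmetric probability measure `μ` on the free group of rank two whose support
generates the group, such that for some `n ≥ 1` the semigroup generated by `X_n, X_(n+1), …` is
with positive probability not the whole group; in fact, almost surely, for some `n ≥ 1` this
semigroup does not contain the identity. -/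
theorem result : ∃ μ : PMF (FreeGroup (Fin 2)),
    (∀ g, μ g⁻¹ = μ g) ∧ Subgroup.closure μ.support = ⊤ ∧
    (∃ n ≥ 1, 0 < iidLaw μ {ω | semigroupFrom ω n ≠ ⊤}) ∧
    ∀ᵐ ω ∂iidLaw μ, ∃ n ≥ 1, 1 ∉ semigroupFrom ω n :=
  ⟨mu, mu_symm, mu_gen, not_ar, ae_good⟩

end Pool.Agent.Results.MP_3ace2b_pr.FreeGroupNotAR
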